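import Pool.Agent.X297.LO.Stm

set_option autoImplicit false

namespace Pool.Agent.X269.LO

open MeasureTheory Pool.Agent.X297.LO

theorem cnt_neg {Ω G : Type} [Fintype Ω] [AddCommGroup G] (g : Ω → G) (a b c : ℤ) (k : G) :
    cnt g (-a) (-b) (-c) k = cnt g a b c (-k) := by
  unfold cnt
  refine Nat.card_congr (Equiv.subtypeEquivRight (fun p => ?_))
  have : (-a) • g p.1 + (-b) • g p.2.1 + (-c) • g p.2.2
      = -(a • g p.1 + b • g p.2.1 + c • g p.2.2) := by
    simp only [neg_smul]; abel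
  rw [this, neg_eq_iff_eq_neg]

theorem cnt_12 {Ω G : Type} [Fintype Ω] [AddCommGroup G] (g : Ω → G) (a b c : ℤ) (k : G) :
    cnt g a b c k = cnt g b a c k := by
  unfold cnt
  refine Nat.card_congr (Equiv.subtypeEquiv ⟨fun p => (p.2.1, p.1, p.2.2),
    fun p => (p.2.1, p.1, p.2.2), fun _ => rfl, fun _ => rfl⟩ (fun p => ?_))
  change _ ↔ b • g p.2.1 + a • g p.1 + c • g p.2.2 = k
  rw [add_comm (b • g p.2.1)]

theorem cnt_23 {Ω G : Type} [Fintype Ω] [AddCommGroup G] (g : Ω → G) (a b c : ℤ) (k : G) :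
    cnt g a b c k = cnt g a c b k := by
  unfold cnt
  refine Nat.card_congr (Equiv.subtypeEquiv ⟨fun p => (p.1, p.2.2, p.2.1),
    fun p => (p.1, p.2.2, p.2.1), fun _ => rfl, fun _ => rfl⟩ (fun p => ?_))
  change _ ↔ a • g p.1 + c • g p.2.2 + b • g p.2.1 = k
  rw [add_right_comm]

theorem cnt_signs {Ω G : Type} [Fintype Ω] [AddCommGroup G] (g : Ω → G) (N : ℕ)
    (h1 : ∀ k, cnt g 1 1 1 k < N) (h2 : ∀ k, cnt g 1 (-1) 1 k < N) (a b c : ℤ)
    (ha : a = 1 ∨ a = -1) (hb : b = 1 ∨ b = -1) (hc : c = 1 ∨ c = -1) (k : G) :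
    cnt g a b c k < N := by
  rcases ha with rfl | rfl <;> rcases hb with rfl | rfl <;> rcases hc with rfl | rfl
  · exact h1 k
  · rw [cnt_23]; exact h2 k
  · exact h2 k
  · have := cnt_neg g (-1) 1 1 k
    rw [neg_neg] at this
    rw [this, cnt_12]
    exact h2 _
  · rw [cnt_12]; exact h2 k
  · have := cnt_neg g 1 (-1) 1 k
    rw [neg_neg] at this
    rw [this]
    exact h2 _
  · have := cnt_neg g 1 1 (-1) k
    rw [neg_neg] at this
    rw [this, cnt_23]
    exact h2 _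
  · rw [cnt_neg]; exact h1 _

theorem prob_unif (Ω : Type) [Fintype Ω] [Nonempty Ω] [MeasurableSpace Ω] :
    IsProbabilityMeasure ((Fintype.card Ω : ENNReal)⁻¹ • (Measure.count : Measure Ω)) := by
  constructor
  rw [Measure.smul_apply, Measure.count_apply MeasurableSet.univ, smul_eq_mul]
  rw [show (Set.univ : Set Ω).encard = (Fintype.card Ω : ℕ∞) by
    rw [Set.encard_univ, ENat.card_eq_coe_fintype_card]]
  rw [ENat.toENNReal_coe]
  exact ENNReal.inv_mul_cancel (by simp) (by simp)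

theorem pi_unif (Ω : Type) [Fintype Ω] [Nonempty Ω] [MeasurableSpace Ω]
    [MeasurableSingletonClass Ω] (S : Set (Fin 3 → Ω)) :
    Measure.pi (fun _ : Fin 3 => ((Fintype.card Ω : ENNReal)⁻¹ • (Measure.count : Measure Ω))) S
      = (Nat.card S : ENNReal) * ((Fintype.card Ω : ENNReal)⁻¹) ^ 3 := by
  classical
  haveI := prob_unif Ω
  have h1 : S = (↑(S.toFinset) : Set (Fin 3 → Ω)) := by simp
  have h2 : Measure.pi (fun _ : Fin 3 => ((Fintype.card Ω : ENNReal)⁻¹ •
      (Measure.count : Measure Ω))) S = ∑ f ∈ S.toFinset,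
      Measure.pi (fun _ : Fin 3 => ((Fintype.card Ω : ENNReal)⁻¹ •
      (Measure.count : Measure Ω))) {f} := by
    conv_lhs => rw [h1]
    rw [sum_measure_singleton]
  rw [h2, Finset.sum_congr rfl (g := fun _ => ((Fintype.card Ω : ENNReal)⁻¹) ^ 3)]
  · rw [Finset.sum_const, Set.toFinset_card, nsmul_eq_mul, Nat.card_eq_fintype_card]
  · intro f _
    rw [Measure.pi_singleton]
    simp [Measure.smul_apply]

theorem t_MEAS : S_MEAS := by
  rintro ⟨ι, Ω, hι, hΩ, hne, g, x, h1, h2⟩ H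
  classical
  letI : MeasurableSpace Ω := ⊤
  let e := Fintype.equivFin ι
  let G : Ω → (Fin (Fintype.card ι) → ℤ) := fun ω j => g ω (e.symm j)
  let c : ENNReal := (Fintype.card Ω : ENNReal)⁻¹
  let U : Measure Ω := c • Measure.count
  haveI hU : IsProbabilityMeasure U := prob_unif Ω
  have hGm : Measurable G := Measurable.of_discrete
  haveI hμ : IsProbabilityMeasure (U.map G) := Measure.isProbabilityMeasure_map hGm.aemeasurable
  obtain ⟨w, hw, hH⟩ := H 3 (Fintype.card ι) (U.map G)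
  have key : ∀ S : Set (Fin 3 → Fin (Fintype.card ι) → ℤ),
      Measure.pi (fun _ : Fin 3 => U.map G) S
        = (Nat.card {p : Fin 3 → Ω // (fun i => G (p i)) ∈ S} : ENNReal) * c ^ 3 := by
    intro S
    have h3 := Measure.pi_map_pi (μ := fun _ : Fin 3 => U) (f := fun _ : Fin 3 => G)
      (fun _ => hGm.aemeasurable)
    rw [← h3, Measure.map_apply (Measurable.of_discrete) (Set.to_countable S).measurableSet]
    exact pi_unif Ω _
  have hc0 : c ^ 3 ≠ 0 := pow_ne_zero _ (ENNReal.inv_ne_zero.2 (by simp))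
  have hct : c ^ 3 ≠ ⊤ := ENNReal.pow_ne_top (ENNReal.inv_ne_top.2 (by simp))
  let E3 : (Fin 3 → Ω) ≃ Ω × Ω × Ω :=
    ⟨fun p => (p 0, p 1, p 2), fun q => ![q.1, q.2.1, q.2.2],
      fun p => by ext i; fin_cases i <;> rfl, fun q => rfl⟩
  have hcount : ∀ (a b c' : ℤ) (k : Fin (Fintype.card ι) → ℤ)
      (P : (Fin 3 → Ω) → Prop) (_ : ∀ p, P p ↔ a • G (p 0) + b • G (p 1) + c' • G (p 2) = k),
      Nat.card {p : Fin 3 → Ω // P p} = cnt g a b c' (fun i => k (e i)) := by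
    intro a b c' k P hP
    unfold cnt
    refine Nat.card_congr (Equiv.subtypeEquiv E3 (fun p => ?_))
    rw [hP]
    change _ ↔ a • g (p 0) + b • g (p 1) + c' • g (p 2) = fun i => k (e i)
    constructor
    · intro h
      funext i
      have := congrFun h (e i)
      simpa [G] using this
    · intro h
      funext j
      have := congrFun h (e.symm j)
      simpa [G] using this
  have h4 := hH ![1, -1, 2] (by intro i; fin_cases i <;> simp) (fun j => (x (e.symm j) : ℝ))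
  rw [key] at h4
  have h5 : Nat.card {p : Fin 3 → Ω // (fun i => G (p i)) ∈
      {ω : Fin 3 → Fin (Fintype.card ι) → ℤ | ∑ i, (![1, -1, 2] : Fin 3 → ℝ) i •
        (fun j => ((ω i j : ℤ) : ℝ)) = fun j => (x (e.symm j) : ℝ)}} = cnt g 1 (-1) 2 x := by
    rw [hcount 1 (-1) 2 (fun j => x (e.symm j))]
    · simp
    · intro p
      rw [Set.mem_ofPred_eq, Fin.sum_univ_three, funext_iff, funext_iff]
      refine forall_congr' (fun j => ?_)
      change (1 : ℝ) * ((G (p 0) j : ℤ) : ℝ) + (-1 : ℝ) * ((G (p 1) j : ℤ) : ℝ)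
        + (2 : ℝ) * ((G (p 2) j : ℤ) : ℝ) = ((x (e.symm j) : ℤ) : ℝ) ↔
        (1 : ℤ) * G (p 0) j + (-1) * G (p 1) j + 2 * G (p 2) j = x (e.symm j)
      rw [← Int.cast_inj (α := ℝ)]
      push_cast
      exact Iff.rfl
  rw [h5] at h4
  have h6 : (⨆ k : Fin (Fintype.card ι) → ℤ, Measure.pi (fun _ : Fin 3 => U.map G)
      {ω : Fin 3 → Fin (Fintype.card ι) → ℤ | ∑ i, w i • ω i = k})
      ≤ ((cnt g 1 (-1) 2 x - 1 : ℕ) : ENNReal) * c ^ 3 := by
    refine iSup_le (fun k => ?_)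
    rw [key, hcount (w 0) (w 1) (w 2) k]
    · have h7 := cnt_signs g _ h1 h2 (w 0) (w 1) (w 2) (hw 0) (hw 1) (hw 2) (fun i => k (e i))
      gcongr
      omega
    · intro p
      rw [Set.mem_ofPred_eq, Fin.sum_univ_three]
  have h8 := h4.trans h6
  have h9 : (cnt g 1 (-1) 2 x : ENNReal) ≤ ((cnt g 1 (-1) 2 x - 1 : ℕ) : ENNReal) :=
    (ENNReal.mul_le_mul_iff_left hc0 hct).1 h8
  have h10 : cnt g 1 (-1) 2 x ≤ cnt g 1 (-1) 2 x - 1 := by exact_mod_cast h9
  have := h1 0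
  omega

end Pool.Agent.X269.LO
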